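import Mathlib

/-! A graded polynomial Poisson algebra whose log-ozone group exceeds its rank over the center. -/

namespace Pool.Agent.Results.MP_987c99_al.Loz

open MvPolynomial TensorProduct Cardinal

/-- A graded Poisson bracket on `k[x_1, ..., x_n]`. -/
structure GradedPoisson (k : Type) [Field k] (n : ℕ) where
  br : MvPolynomial (Fin n) k →ₗ[k] MvPolynomial (Fin n) k →ₗ[k] MvPolynomial (Fin n) k
  alt : ∀ a, br a a = 0
  jacobi : ∀ a b c, br a (br b c) + br b (br c a) + br c (br a b) = 0
  leibniz : ∀ a b c, br a (b * c) = b * br a c + c * br a b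
  graded : ∀ i j, (br (X i) (X j)).IsHomogeneous 2

variable {k : Type} [Field k] {n : ℕ}

theorem GradedPoisson.skew (B : GradedPoisson k n) (a b) : B.br a b = - B.br b a := by
  have := B.alt (a + b)
  simp only [map_add, LinearMap.add_apply, B.alt] at this
  linear_combination this

/-- The Poisson center. -/
def center (B : GradedPoisson k n) : Subalgebra k (MvPolynomial (Fin n) k) where
  carrier := {z | ∀ a, B.br z a = 0}
  mul_mem' := by
    intro y z hy hz a
    rw [B.skew, B.leibniz, B.skew a z, B.skew a y, hy a, hz a]; simp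
  add_mem' := by
    intro y z hy hz a
    rw [map_add, LinearMap.add_apply, hy a, hz a]; simp
  algebraMap_mem' := by
    intro r a
    have h := B.leibniz a 1 1
    simp only [mul_one, one_mul, left_eq_add] at h
    rw [Algebra.algebraMap_eq_smul_one, map_smul, LinearMap.smul_apply, B.skew, h]; simp

/-- The rank of `P` over its Poisson center `Z`: the dimension of `Frac Z ⊗ P`. -/
noncomputable def rk (B : GradedPoisson k n) : Cardinal :=
  Module.rank (FractionRing (center B))
    (FractionRing (center B) ⊗[center B] MvPolynomial (Fin n) k)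

/-- The log-ozone group: generated by the derivations `δ` with `{a, f} = f * δ a`, `f ≠ 0`. -/
noncomputable def loz (B : GradedPoisson k n) :
    AddSubgroup (Derivation k (MvPolynomial (Fin n) k) (MvPolynomial (Fin n) k)) :=
  AddSubgroup.closure {δ | ∃ f, f ≠ 0 ∧ ∀ a, B.br a f = f * δ a}

section example_

abbrev P (k : Type) [Field k] := MvPolynomial (Fin 4) k

noncomputable def D (t : k) : Derivation k (P k) (P k) :=
  mkDerivation k ![X 0 * (X 0 + C t * X 0), X 1 * (X 1 + C t * X 0), X 2 * (X 2 + C t * X 0), 0]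

noncomputable def W : Derivation k (P k) (P k) := pderiv 3

theorem D0 (t : k) : D t (X 0) = X 0 * (X 0 + C t * X 0) := by simp [D, mkDerivation_X]
theorem D1 (t : k) : D t (X 1) = X 1 * (X 1 + C t * X 0) := by simp [D, mkDerivation_X]
theorem D2 (t : k) : D t (X 2) = X 2 * (X 2 + C t * X 0) := by simp [D, mkDerivation_X]
theorem D3 (t : k) : D t (X 3) = 0 := by simp [D, mkDerivation_X]
theorem W0 : W (X 0 : P k) = 0 := by simp [W, pderiv_X]
theorem W1 : W (X 1 : P k) = 0 := by simp [W, pderiv_X]
theorem W2 : W (X 2 : P k) = 0 := by simp [W, pderiv_X]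
theorem W3 : W (X 3 : P k) = 1 := by simp [W, pderiv_X]

theorem WD (t : k) (a : P k) : W (D t a) = D t (W a) := by
  have : ⁅(W : Derivation k (P k) (P k)), D t⁆ = 0 := by
    apply derivation_ext
    intro i
    rw [Derivation.commutator_apply]
    fin_cases i <;> simp [D0, D1, D2, D3, W0, W1, W2, W3]
  have h := congrArg (fun d : Derivation k (P k) (P k) => d a) this
  simp only [Derivation.commutator_apply, Derivation.zero_apply] at h
  linear_combination h

noncomputable def B (t : k) : GradedPoisson k 4 where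
  br := LinearMap.mk₂ k (fun a b => W a * D t b - D t a * W b)
    (by intros; simp only [map_add]; ring) (by intros; simp [smul_sub])
    (by intros; simp only [map_add]; ring) (by intros; simp [smul_sub])
  alt a := by simp [mul_comm]
  jacobi a b c := by
    simp only [LinearMap.mk₂_apply, map_sub, Derivation.leibniz, smul_eq_mul, WD]; ring
  leibniz a b c := by simp only [LinearMap.mk₂_apply, Derivation.leibniz, smul_eq_mul]; ring
  graded i j := by
    have h : ∀ i : Fin 4, (X i * (X i + C t * X 0) : P k).IsHomogeneous 2 := fun i =>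
      (isHomogeneous_X k i).mul ((isHomogeneous_X k i).add (isHomogeneous_C_mul_X t 0))
    fin_cases i <;> fin_cases j <;>
      simp [D0, D1, D2, D3, W0, W1, W2, W3, isHomogeneous_zero, h, IsHomogeneous.neg]

theorem B_br (t : k) (a b : P k) : (B t).br a b = W a * D t b - D t a * W b := rfl

theorem mem_center {t : k} {z : P k} (h1 : W z = 0) (h2 : D t z = 0) : z ∈ center (B t) := by
  intro a; rw [B_br, h1, h2]; simp

theorem mem_loz {t : k} {f c : P k} (h0 : f ≠ 0) (h1 : W f = 0) (h2 : D t f = f * c) :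
    c • (W : Derivation k (P k) (P k)) ∈ loz (B t) := by
  apply AddSubgroup.subset_closure
  refine ⟨f, h0, fun a => ?_⟩
  rw [B_br, h1, h2]; simp; ring

theorem sub_ne (i j : Fin 4) (h : i ≠ j) : (X i - X j : P k) ≠ 0 :=
  sub_ne_zero.2 fun e => h (X_injective e)

theorem loz_gens (t : k) : (X 0 : P k) • (W : Derivation k (P k) (P k)) ∈ loz (B t) ∧
    (X 1 : P k) • (W : Derivation k (P k) (P k)) ∈ loz (B t) ∧
    (X 2 : P k) • (W : Derivation k (P k) (P k)) ∈ loz (B t) ∧
    (C t * X 0 : P k) • (W : Derivation k (P k) (P k)) ∈ loz (B t) := by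
  have a0 := mem_loz (X_ne_zero 0) W0 (D0 t)
  have a1 := mem_loz (X_ne_zero 1) W1 (D1 t)
  have a2 := mem_loz (X_ne_zero 2) W2 (D2 t)
  have a3 := mem_loz (t := t) (c := X 0 + X 1 + C t * X 0) (sub_ne 0 1 (by decide))
    (by simp [W0, W1]) (by rw [map_sub, D0, D1]; ring)
  have sb : ∀ {a b : P k} (c : P k), a • (W : Derivation k (P k) (P k)) ∈ loz (B t) →
      b • (W : Derivation k (P k) (P k)) ∈ loz (B t) → c = a - b →
      c • (W : Derivation k (P k) (P k)) ∈ loz (B t) := by
    intro a b c ha hb h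
    convert sub_mem ha hb using 1
    apply derivation_ext
    intro i
    simp [h, sub_mul]
  have b0 := sb (X 0) a3 a1 (by ring)
  have b3 := sb (C t * X 0) a0 b0 (by ring)
  have b1 := sb (X 1) a1 b3 (by ring)
  have b2 := sb (X 2) a2 b3 (by ring)
  exact ⟨b0, b1, b2, b3⟩

variable (p : ℕ) [Fact p.Prime] [CharP k p]

theorem loz_card {t : k} (ht : ∀ m : ℤ, t ≠ m) : (p : Cardinal) ^ 4 ≤ #(loz (B t)) := by
  obtain ⟨b0, b1, b2, b3⟩ := loz_gens t
  let ι : ZMod p →+* k := ZMod.castHom (dvd_refl p) k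
  have hι : ∀ a : ZMod p, ((a.val : ℕ) : k) = ι a := fun a => by simp [ι]
  let g : (Fin 4 → ZMod p) → loz (B t) := fun a =>
    ⟨(a 0).val • ((X 0 : P k) • W) + (a 1).val • ((X 1 : P k) • W) + (a 2).val • ((X 2 : P k) • W)
      + (a 3).val • ((C t * X 0 : P k) • W),
      add_mem (add_mem (add_mem (nsmul_mem b0 _) (nsmul_mem b1 _)) (nsmul_mem b2 _))
        (nsmul_mem b3 _)⟩
  have hg : Function.Injective g := by
    intro a a' h
    have h1 := congrArg (fun d : loz (B t) => (d : Derivation k (P k) (P k)) (X 3)) h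
    simp only [g, Derivation.add_apply, Derivation.smul_apply, W3, smul_eq_mul,
      mul_one, nsmul_eq_mul] at h1
    have e0 := congrArg (eval ![1, 0, 0, 0]) h1
    have e1 := congrArg (eval ![0, 1, 0, 0]) h1
    have e2 := congrArg (eval ![0, 0, 1, 0]) h1
    simp only [map_add, map_mul, map_natCast, eval_X, eval_C, hι] at e0 e1 e2
    simp at e0 e1 e2
    have e3 : a 3 = a' 3 := by
      by_contra hne
      have hne' : ι (a 3 - a' 3) ≠ 0 := (map_ne_zero ι).2 (sub_ne_zero.2 hne)
      apply ht (((a' 0 - a 0) / (a 3 - a' 3)).val : ℕ)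
      rw [Int.cast_natCast, hι, map_div₀, eq_div_iff hne', map_sub, map_sub]
      linear_combination e0
    rw [e3, add_left_inj] at e0
    funext i
    fin_cases i
    · exact ι.injective e0
    · exact ι.injective e1
    · exact ι.injective e2
    · exact e3
  have := Cardinal.mk_le_of_injective hg
  simpa [ZMod.card] using this

theorem pow_center (t : k) (f : P k) : f ^ p ∈ center (B t) := by
  apply mem_center <;> simp [Derivation.leibniz_pow, ← Nat.cast_smul_eq_nsmul k]

noncomputable def mon (a : Fin 3 → Fin p) : P k := X 0 ^ (a 0).1 * X 1 ^ (a 1).1 * X 3 ^ (a 2).1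

noncomputable def T (t : k) : Submodule (center (B t)) (P k) :=
  Submodule.span _ (Set.range (mon p))

theorem cen_mul {t : k} {z f : P k} (hz : z ∈ center (B t)) (hf : f ∈ T p t) : z * f ∈ T p t :=
  (T p t).smul_mem ⟨z, hz⟩ hf

theorem mon_mem (t : k) (a b c : ℕ) : (X 0 ^ a * X 1 ^ b * X 3 ^ c : P k) ∈ T p t := by
  have hp := (Fact.out : p.Prime).pos
  have e : (X 0 ^ a * X 1 ^ b * X 3 ^ c : P k) =
      (X 0 ^ (a / p) * X 1 ^ (b / p) * X 3 ^ (c / p)) ^ p *
        mon p ![⟨a % p, Nat.mod_lt _ hp⟩, ⟨b % p, Nat.mod_lt _ hp⟩, ⟨c % p, Nat.mod_lt _ hp⟩] := by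
    conv_lhs => rw [← Nat.div_add_mod a p, ← Nat.div_add_mod b p, ← Nat.div_add_mod c p]
    simp only [mon, Matrix.cons_val_zero, Matrix.cons_val_one, Matrix.cons_val]
    ring
  rw [e]
  exact cen_mul p (pow_center p t _) (Submodule.subset_span ⟨_, rfl⟩)

theorem mul_X_mem (t : k) (i : Fin 4) (hi : i ≠ 2) {f : P k} (hf : f ∈ T p t) :
    f * X i ∈ T p t := by
  induction hf using Submodule.span_induction with
  | mem x hx =>
    obtain ⟨a, rfl⟩ := hx
    fin_cases i
    · convert mon_mem p t ((a 0).1 + 1) (a 1).1 (a 2).1 using 1; simp [mon]; ring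
    · convert mon_mem p t (a 0).1 ((a 1).1 + 1) (a 2).1 using 1; simp [mon]; ring
    · exact absurd rfl hi
    · convert mon_mem p t (a 0).1 (a 1).1 ((a 2).1 + 1) using 1; simp [mon]; ring
  | zero => simp
  | add x y _ _ hx hy => rw [add_mul]; exact add_mem hx hy
  | smul c x _ hx => rw [smul_mul_assoc]; exact Submodule.smul_mem _ _ hx

theorem clear (t : k) (f : P k) : ∃ s, s ∈ center (B t) ∧ s ≠ 0 ∧ s * f ∈ T p t := by
  obtain ⟨q, hq⟩ : ∃ q, p = q + 1 := ⟨p - 1, by have := (Fact.out : p.Prime).pos; omega⟩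
  set N : P k := (X 1 - X 0) * X 2 with hN
  set M : P k := (X 2 - X 0) * X 1 with hM
  have hM0 : M ≠ 0 := mul_ne_zero (sub_ne 2 0 (by decide)) (X_ne_zero 1)
  have c2 : M ^ p ∈ center (B t) := pow_center p t M
  have c1 : N * M ^ q ∈ center (B t) := by
    have dN : D t N = N * (X 0 + X 1 + X 2 + 2 * (C t * X 0)) := by
      simp only [hN, Derivation.leibniz, map_sub, D0, D1, D2, smul_eq_mul]; ring
    have dM : D t M = M * (X 0 + X 1 + X 2 + 2 * (C t * X 0)) := by
      simp only [hM, Derivation.leibniz, map_sub, D0, D1, D2, smul_eq_mul]; ring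
    have dp : ∀ j : ℕ, D t (M ^ j) = (j : P k) * M ^ j * (X 0 + X 1 + X 2 + 2 * (C t * X 0)) := by
      intro j
      induction j with
      | zero => simp
      | succ j ih => rw [pow_succ, Derivation.leibniz, ih, dM]; simp only [smul_eq_mul]; push_cast; ring
    apply mem_center
    · have : W M = 0 := by simp [hM, W0, W1, W2]
      simp [hN, Derivation.leibniz_pow, W0, W1, W2, this]
    · have hc : ((q : P k) + 1) = 0 := by
        have := CharP.cast_eq_zero (P k) p
        rwa [hq, Nat.cast_succ] at this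
      rw [Derivation.leibniz, dp, dN]
      simp only [smul_eq_mul]
      linear_combination (N * M ^ q * (X 0 + X 1 + X 2 + 2 * (C t * X 0))) * hc
  set L : P k := M ^ p * X 0 + (N * M ^ q - M ^ p) * X 1 with hL
  have hL0 : L ≠ 0 := by
    have : L = M ^ q * (X 0 * X 1 * (X 1 - X 0)) := by
      simp only [hL, hq, pow_succ]; rw [hM, hN]; ring
    rw [this]
    exact mul_ne_zero (pow_ne_zero _ hM0)
      (mul_ne_zero (mul_ne_zero (X_ne_zero 0) (X_ne_zero 1)) (sub_ne 1 0 (by decide)))
  have hLz : L * X 2 = N * M ^ q * X 0 * X 1 := by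
    simp only [hL, hq, pow_succ]; rw [hM, hN]; ring
  have mulL : ∀ (j : ℕ) (g : P k), g ∈ T p t → L ^ j * g ∈ T p t := by
    intro j g hg
    induction j with
    | zero => simpa using hg
    | succ j ih =>
      have := add_mem (cen_mul p c2 (mul_X_mem p t 0 (by decide) ih))
        (cen_mul p (sub_mem c1 c2) (mul_X_mem p t 1 (by decide) ih))
      convert this using 1
      rw [pow_succ, hL]; ring
  induction f using MvPolynomial.induction_on with
  | C a =>
    refine ⟨1, one_mem _, one_ne_zero, ?_⟩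
    have := cen_mul p ((center (B t)).algebraMap_mem a) (mon_mem p t 0 0 0)
    simpa using this
  | add f g hf hg =>
    obtain ⟨s, s1, s2, s3⟩ := hf
    obtain ⟨r, r1, r2, r3⟩ := hg
    refine ⟨s * r, mul_mem s1 r1, mul_ne_zero s2 r2, ?_⟩
    convert add_mem (cen_mul p r1 s3) (cen_mul p s1 r3) using 1
    ring
  | mul_X f i hf =>
    obtain ⟨s, s1, s2, s3⟩ := hf
    by_cases hi : i = 2
    · subst hi
      refine ⟨L ^ p * s, mul_mem (pow_center p t L) s1, mul_ne_zero (pow_ne_zero _ hL0) s2, ?_⟩
      have := mulL q _ (cen_mul p c1 (mul_X_mem p t 1 (by decide) (mul_X_mem p t 0 (by decide) s3)))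
      convert this using 1
      rw [hq, pow_succ]
      linear_combination (L ^ q * s * f) * hLz
    · exact ⟨s, s1, s2, by rw [← mul_assoc]; exact mul_X_mem p t i hi s3⟩

theorem rk_le (t : k) : rk (B t) ≤ (p : Cardinal) ^ 3 := by
  let K := FractionRing (center (B t))
  let v : (Fin 3 → Fin p) → K ⊗[center (B t)] P k := fun a => 1 ⊗ₜ mon p a
  have hT : ∀ g ∈ T p t, (1 : K) ⊗ₜ[center (B t)] g ∈ Submodule.span K (Set.range v) := by
    intro g hg
    induction hg using Submodule.span_induction with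
    | mem x hx => obtain ⟨a, rfl⟩ := hx; exact Submodule.subset_span ⟨a, rfl⟩
    | zero => simp
    | add x y _ _ hx hy => rw [tmul_add]; exact add_mem hx hy
    | smul c x _ hx =>
      rw [tmul_smul, ← algebraMap_smul K]; exact Submodule.smul_mem _ _ hx
  have htop : Submodule.span K (Set.range v) = ⊤ := by
    rw [eq_top_iff]
    rintro x -
    induction x using TensorProduct.induction_on with
    | zero => simp
    | add x y hx hy => exact add_mem hx hy
    | tmul c f =>
      obtain ⟨s, s1, s2, s3⟩ := clear p t f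
      have hs : algebraMap (center (B t)) K ⟨s, s1⟩ ≠ 0 := by
        rw [Ne, IsFractionRing.to_map_eq_zero_iff]
        exact fun e => s2 (congrArg Subtype.val e)
      have e : c ⊗ₜ[center (B t)] f =
          (c * (algebraMap (center (B t)) K ⟨s, s1⟩)⁻¹) • ((1 : K) ⊗ₜ[center (B t)] (s * f)) := by
        rw [show s * f = (⟨s, s1⟩ : center (B t)) • f from rfl, tmul_smul,
          ← algebraMap_smul K (⟨s, s1⟩ : center (B t)), smul_smul, mul_assoc, inv_mul_cancel₀ hs, mul_one, smul_tmul', smul_eq_mul, mul_one]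
      rw [e]
      exact Submodule.smul_mem _ _ (hT _ s3)
  have h1 := rank_span_le (R := K) (Set.range v)
  rw [htop, rank_top] at h1
  refine h1.trans (Cardinal.mk_range_le.trans ?_)
  simp

end example_

theorem result :
    (∀ (p : ℕ) [Fact p.Prime] (k : Type) [Field k] [CharP k p], (∃ t : k, ∀ m : ℤ, t ≠ m) →
      ∃ B : GradedPoisson k 4, rk B < #(loz B)) ∧
    ¬ ∀ (p : ℕ) [Fact p.Prime] (k : Type) [Field k] [CharP k p] (n : ℕ), 1 ≤ n →
      ∀ B : GradedPoisson k n, #(loz B) ≤ rk B := by
  have main : ∀ (p : ℕ) [Fact p.Prime] (k : Type) [Field k] [CharP k p],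
      (∃ t : k, ∀ m : ℤ, t ≠ m) → ∃ B : GradedPoisson k 4, rk B < #(loz B) := by
    rintro p _ k _ _ ⟨t, ht⟩
    refine ⟨B t, (rk_le p t).trans_lt (lt_of_lt_of_le ?_ (loz_card p ht))⟩
    exact_mod_cast Nat.pow_lt_pow_right (Fact.out : p.Prime).one_lt (by norm_num : 3 < 4)
  refine ⟨main, fun h => ?_⟩
  classical
  obtain ⟨t, ht⟩ := Infinite.exists_notMem_finset
    ({0, 1} : Finset (AlgebraicClosure (ZMod 2)))
  obtain ⟨B, hB⟩ := main 2 (AlgebraicClosure (ZMod 2)) ⟨t, by
    rintro m rfl
    apply ht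
    have h2 : ((2 : ℤ) : AlgebraicClosure (ZMod 2)) = 0 := by
      exact_mod_cast CharP.cast_eq_zero (AlgebraicClosure (ZMod 2)) 2
    rcases Int.even_or_odd' m with ⟨j, rfl | rfl⟩
    · rw [Int.cast_mul, h2]; simp
    · rw [Int.cast_add, Int.cast_mul, h2]; simp⟩
  exact absurd (h 2 _ 4 (by norm_num) B) hB.not_ge

end Pool.Agent.Results.MP_987c99_al.Loz
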